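import Mathlib
import Pool.Agent.H16.LA.S8.H437R2.Man.MWCan

/-!
# Counting in a finitely generated group with an approximately quadratic height
-/

set_option autoImplicit false
set_option linter.unusedSectionVars false

open MeasureTheory Filter Topology Matrix Bornology Pointwise

namespace Pool.Agent.TH942

section ellipsoid

variable {ι : Type} [Fintype ι] [DecidableEq ι]

/-- `y ↦ M y` as a map to Euclidean space. -/
noncomputable def emb (M : Matrix ι ι ℝ) : (ι → ℝ) →ₗ[ℝ] EuclideanSpace ℝ ι :=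
  (WithLp.linearEquiv 2 ℝ (ι → ℝ)).symm.toLinearMap ∘ₗ M.mulVecLin

lemma emb_sq (M : Matrix ι ι ℝ) (y : ι → ℝ) : ‖emb M y‖ ^ 2 = ∑ i, (M *ᵥ y) i ^ 2 := by
  rw [EuclideanSpace.norm_sq_eq]
  simp [emb]

lemma emb_cont (M : Matrix ι ι ℝ) : Continuous (emb M) :=
  LinearMap.continuous_of_finiteDimensional _

lemma emb_inj {M : Matrix ι ι ℝ} (hM : M.det ≠ 0) : (emb M).ker = ⊥ := by
  rw [LinearMap.ker_eq_bot']
  intro y hy
  by_contra h
  apply hM
  rw [← Matrix.exists_mulVec_eq_zero_iff]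
  refine ⟨y, h, ?_⟩
  have := congrArg (WithLp.linearEquiv 2 ℝ (ι → ℝ)) hy
  simpa [emb] using this

/-- The ellipsoid. -/
def ell (M : Matrix ι ι ℝ) : Set (ι → ℝ) := {y | ‖emb M y‖ ≤ 1}

lemma ell_bdd {M : Matrix ι ι ℝ} (hM : M.det ≠ 0) : IsBounded (ell M) := by
  obtain ⟨K, hK, h⟩ := LinearMap.exists_antilipschitzWith (emb M) (emb_inj hM)
  have h1 : ell M = (emb M) ⁻¹' (Metric.closedBall 0 1) := by
    ext y; simp [ell]
  rw [h1]
  exact h.isBounded_preimage Metric.isBounded_closedBall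

lemma ell_closed (M : Matrix ι ι ℝ) : IsClosed (ell M) :=
  isClosed_le (emb_cont M).norm continuous_const

lemma ell_convex (M : Matrix ι ι ℝ) : Convex ℝ (ell M) := by
  have h1 : ell M = (emb M) ⁻¹' (Metric.closedBall 0 1) := by
    ext y; simp [ell]
  rw [h1]
  exact (convex_closedBall _ _).linear_preimage _

lemma ell_mono (M : Matrix ι ι ℝ) ⦃x y : ℝ⦄ (hx : 0 < x) (hxy : x ≤ y) :
    x • ell M ⊆ y • ell M := by
  rintro _ ⟨z, hz, rfl⟩
  have hy : 0 < y := hx.trans_le hxy
  refine ⟨(x / y) • z, ?_, ?_⟩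
  · simp only [ell, Set.mem_ofPred_eq] at hz ⊢
    rw [map_smul, norm_smul, Real.norm_eq_abs, abs_of_pos (div_pos hx hy)]
    have : x / y ≤ 1 := (div_le_one hy).2 hxy
    calc x / y * ‖emb M z‖ ≤ 1 * 1 := by
          apply mul_le_mul this hz (norm_nonneg _) zero_le_one
      _ = 1 := one_mul 1
  · simp only [smul_smul]
    congr 1
    field_simp

/-- The volume of the unit ball. -/
noncomputable def ballVol (r : ℕ) : ℝ := √Real.pi ^ r / Real.Gamma (r / 2 + 1)

lemma ballVol_pos (r : ℕ) : 0 < ballVol r := by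
  unfold ballVol
  have : 0 < Real.Gamma ((r : ℝ) / 2 + 1) := Real.Gamma_pos_of_pos (by positivity)
  positivity

lemma vol_ball : volume {y : ι → ℝ | ∑ i, y i ^ 2 ≤ 1} =
    ENNReal.ofReal (ballVol (Fintype.card ι)) := by
  rcases isEmpty_or_nonempty ι with h | h
  · have h1 : {y : ι → ℝ | ∑ i, y i ^ 2 ≤ 1} = Set.univ := by
      ext y
      simp
    rw [h1]
    rw [Measure.volume_pi_eq_dirac (0 : ι → ℝ)]
    simp [ballVol, Fintype.card_eq_zero]
  · have h1 := EuclideanSpace.volume_closedBall ι 0 1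
    have h2 := (PiLp.volume_preserving_toLp ι).measure_preimage
      (Metric.isClosed_closedBall (x := (0 : EuclideanSpace ℝ ι)) (ε := 1)).measurableSet.nullMeasurableSet
    rw [h1] at h2
    have h3 : (@WithLp.toLp 2 (ι → ℝ)) ⁻¹' (Metric.closedBall 0 1) =
        {y : ι → ℝ | ∑ i, y i ^ 2 ≤ 1} := by
      ext y
      simp only [Set.mem_preimage, Metric.mem_closedBall, dist_zero_right, Set.mem_ofPred_eq]
      rw [← abs_of_nonneg (norm_nonneg (WithLp.toLp 2 y)), ← sq_le_one_iff_abs_le_one,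
        EuclideanSpace.norm_sq_eq]
      simp
    rw [h3] at h2
    rw [h2]
    simp [ballVol]

lemma ell_vol {M : Matrix ι ι ℝ} (hM : M.det ≠ 0) :
    volume.real (ell M) = ballVol (Fintype.card ι) / |M.det| := by
  have h1 := Real.map_matrix_volume_pi_eq_smul_volume_pi hM
  have hc : Continuous (fun y : ι → ℝ => ∑ i, y i ^ 2) := by fun_prop
  have hms : MeasurableSet {y : ι → ℝ | ∑ i, y i ^ 2 ≤ 1} :=
    (isClosed_le hc continuous_const).measurableSet
  have hmeas : Measurable (toLin' M) := (LinearMap.continuous_of_finiteDimensional _).measurable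
  have h2 : ell M = (toLin' M) ⁻¹' {y : ι → ℝ | ∑ i, y i ^ 2 ≤ 1} := by
    ext y
    simp only [ell, Set.mem_ofPred_eq, Set.mem_preimage, Matrix.toLin'_apply]
    rw [← emb_sq, sq_le_one_iff_abs_le_one, abs_of_nonneg (norm_nonneg _)]
  have h3 : volume (ell M) = ENNReal.ofReal |M.det⁻¹| * ENNReal.ofReal (ballVol (Fintype.card ι)) := by
    rw [h2, ← Measure.map_apply hmeas hms, h1, Measure.smul_apply, vol_ball, smul_eq_mul]
  rw [measureReal_def, h3, ENNReal.toReal_mul, ENNReal.toReal_ofReal (abs_nonneg _),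
    ENNReal.toReal_ofReal (ballVol_pos _).le, abs_inv]
  field_simp

/-- The integral points of a dilated ellipsoid. -/
theorem count_ell {M : Matrix ι ι ℝ} (hM : M.det ≠ 0) :
    Tendsto (fun x : ℝ => (Nat.card {c : ι → ℤ // ‖emb M (fun i => (c i : ℝ))‖ ≤ x} : ℝ) /
      x ^ Fintype.card ι) atTop (𝓝 (ballVol (Fintype.card ι) / |M.det|)) := by
  rw [← ell_vol hM]
  refine (tendsto_card_div_pow_atTop_volume' (ell M) (ell_bdd hM) (ell_closed M).measurableSet
    ((ell_convex M).addHaar_frontier volume) (ell_mono M)).congr' ?_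
  filter_upwards [eventually_gt_atTop 0] with x hx
  congr 2
  apply Nat.card_congr
  have key : ∀ c : ι → ℤ, x⁻¹ • (fun i => (c i : ℝ)) ∈ ell M ↔
      ‖emb M (fun i => (c i : ℝ))‖ ≤ x := by
    intro c
    simp only [ell, Set.mem_ofPred_eq]
    rw [map_smul, norm_smul, Real.norm_eq_abs, abs_of_pos (inv_pos.2 hx), inv_mul_le_iff₀ hx,
      mul_one]
  refine (Equiv.ofBijective (fun c : {c : ι → ℤ // ‖emb M (fun i => (c i : ℝ))‖ ≤ x} =>
    (⟨x⁻¹ • (fun i => (c.1 i : ℝ)), (key c.1).2 c.2, ?_⟩ :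
      ↑(ell M ∩ x⁻¹ • (Submodule.span ℤ (Set.range (Pi.basisFun ℝ ι)) : Set (ι → ℝ))))) ?_).symm
  · refine ⟨fun i => (c.1 i : ℝ), ?_, rfl⟩
    rw [SetLike.mem_coe, Module.Basis.mem_span_iff_repr_mem]
    intro i
    exact ⟨c.1 i, by simp⟩
  · constructor
    · intro c d hcd
      have h1 : x⁻¹ • (fun i => (c.1 i : ℝ)) = x⁻¹ • (fun i => (d.1 i : ℝ)) :=
        congrArg Subtype.val hcd
      have h2 := smul_right_injective (ι → ℝ) (inv_ne_zero hx.ne') h1
      apply Subtype.ext
      ext i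
      have := congrFun h2 i
      exact_mod_cast this
    · rintro ⟨z, hz1, w, hw, rfl⟩
      rw [SetLike.mem_coe, Module.Basis.mem_span_iff_repr_mem] at hw
      choose c hc using hw
      have hw' : w = fun i => (c i : ℝ) := by
        ext i
        have := hc i
        simp at this
        exact this.symm
      subst hw'
      exact ⟨⟨c, (key c).1 hz1⟩, rfl⟩

end ellipsoid

end Pool.Agent.TH942
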