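import Mathlib
import Pool.Agent.H16.LA.S8.H437R2.Man.MW

/-!
# The height on `y² = x³ + a x + b` over a number field: the parallelogram law
-/

set_option autoImplicit false

open WeierstrassCurve Height

namespace Pool.Agent.TH942

variable {K : Type} [Field K]

/-- The curve `y² = x³ + a x + b`. -/
def sw (a b : K) : WeierstrassCurve K :=
  { a₁ := 0, a₂ := 0, a₃ := 0, a₄ := a, a₆ := b }

lemma sw_Δ (a b : K) : (sw a b).Δ = -16 * (4 * a ^ 3 + 27 * b ^ 2) := by
  simp only [WeierstrassCurve.Δ, WeierstrassCurve.b₂, WeierstrassCurve.b₄, WeierstrassCurve.b₆,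
    WeierstrassCurve.b₈, sw]
  ring

lemma sw_ell [CharZero K] {a b : K} (h : 4 * a ^ 3 + 27 * b ^ 2 ≠ 0) :
    (sw a b).IsElliptic := by
  refine ⟨?_⟩
  rw [sw_Δ, isUnit_iff_ne_zero]
  have h16 : (-16 : K) ≠ 0 := by norm_num
  exact mul_ne_zero h16 h

/-- The points. -/
abbrev SPt (a b : K) : Type := (sw a b).toAffine.Point

lemma sw_eqn {a b x y : K} :
    (sw a b).toAffine.Equation x y ↔ y ^ 2 = x ^ 3 + a * x + b := by
  rw [WeierstrassCurve.Affine.equation_iff]
  simp only [sw]
  constructor <;> intro h <;> linear_combination h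

lemma sw_nonsing [CharZero K] {a b x y : K} (hD : 4 * a ^ 3 + 27 * b ^ 2 ≠ 0)
    (h : y ^ 2 = x ^ 3 + a * x + b) :
    (sw a b).toAffine.Nonsingular x y := by
  have := sw_ell hD
  exact WeierstrassCurve.Affine.equation_iff_nonsingular.mp (sw_eqn.mpr h)

/-- numerator of `x(P+Q)` where `s = y1*y2` -/
def snum (a b x1 x2 s : K) : K :=
  x1 * x2 * (x1 + x2) + a * (x1 + x2) + 2 * b - 2 * s

section dec

variable [DecidableEq K]

lemma sneg_mk {a b x y : K} (h : (sw a b).toAffine.Nonsingular x y)
    (h' : (sw a b).toAffine.Nonsingular x (-y)) :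
    -(Affine.Point.some x y h) = (Affine.Point.some x (-y) h') := by
  rw [Affine.Point.neg_some]
  congr 1
  simp [Affine.negY, sw]

lemma sxRep_add {a b x1 y1 x2 y2 : K} (h1 : (sw a b).toAffine.Nonsingular x1 y1)
    (h2 : (sw a b).toAffine.Nonsingular x2 y2) (hx : x1 ≠ x2) :
    (Affine.Point.some x1 y1 h1 + Affine.Point.some x2 y2 h2).xRep
      = ![snum a b x1 x2 (y1 * y2) / (x1 - x2) ^ 2, 1] := by
  rw [Affine.Point.add_of_X_ne hx, Affine.Point.xRep_some]
  congr 1
  rw [Affine.slope_of_X_ne hx, Affine.addX]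
  have e1' := sw_eqn.mp h1.1
  have e2' := sw_eqn.mp h2.1
  have hx' : x1 - x2 ≠ 0 := sub_ne_zero.mpr hx
  simp only [sw, snum]
  field_simp
  ring_nf
  ring_nf at e1' e2'
  linear_combination e1' + e2'

lemma seval_addSub (a b s t u : K) :
    (fun i ↦ (addSubMap (sw a b) i).eval ![s, t, u])
      = ![s ^ 2 - 2 * a * s * u - 4 * b * t * u + a ^ 2 * u ^ 2,
          2 * t * s + 2 * a * t * u + 4 * b * u ^ 2,
          t ^ 2 - 4 * s * u] := by
  funext i
  fin_cases i
  · simp only [addSubMap, WeierstrassCurve.b₂, WeierstrassCurve.b₄, WeierstrassCurve.b₆,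
      WeierstrassCurve.b₈, sw]
    simp
    try ring
  · simp only [addSubMap, WeierstrassCurve.b₂, WeierstrassCurve.b₄, WeierstrassCurve.b₆,
      WeierstrassCurve.b₈, sw]
    simp
    try ring
  · simp only [addSubMap, WeierstrassCurve.b₂, WeierstrassCurve.b₄, WeierstrassCurve.b₆,
      WeierstrassCurve.b₈, sw]
    simp

variable [CharZero K]

lemma sxRep_double {a b x y : K} (h : (sw a b).toAffine.Nonsingular x y) (hy : y ≠ 0) :
    (Affine.Point.some x y h + Affine.Point.some x y h).xRep
      = ![(x ^ 4 - 2 * a * x ^ 2 - 8 * b * x + a ^ 2) / (4 * y ^ 2), 1] := by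
  have hy' : y ≠ (sw a b).toAffine.negY x y := by
    simp only [Affine.negY, sw]
    intro hh
    apply hy
    have h2 : (2 : K) * y = 0 := by linear_combination hh
    rcases mul_eq_zero.mp h2 with h3 | h3
    · norm_num at h3
    · exact h3
  rw [Affine.Point.add_self_of_Y_ne hy', Affine.Point.xRep_some]
  congr 1
  rw [Affine.slope_of_Y_ne rfl hy', Affine.addX]
  have e' := sw_eqn.mp h.1
  have h4 : y ^ 2 * 4 ≠ 0 := mul_ne_zero (pow_ne_zero _ hy) (by norm_num)
  simp only [sw, Affine.negY]
  have e3' : y - (-y - 0 * x - 0) = 2 * y := by ring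
  rw [e3']
  field_simp
  ring_nf
  ring_nf at e'
  linear_combination (-32 * x) * e'

/-- the addition-subtraction map does what it should. -/
lemma saddSub_sym2x {a b : K} (hD : 4 * a ^ 3 + 27 * b ^ 2 ≠ 0) (P Q : SPt a b) :
    ∃ c : K, c ≠ 0 ∧ (fun i ↦ (addSubMap (sw a b) i).eval (P.sym2x Q))
      = c • (P + Q).sym2x (P - Q) := by
  match P, Q with
  | 0, 0 =>
    refine ⟨1, one_ne_zero, ?_⟩
    rw [Affine.Point.sym2x_zero_zero, seval_addSub]
    simp
  | 0, .some x y h =>
    refine ⟨1, one_ne_zero, ?_⟩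
    rw [Affine.Point.sym2x_zero_some, seval_addSub, zero_add, zero_sub,
      Affine.Point.sym2x_neg_right, Affine.Point.sym2x_some_some]
    simp only [one_smul]
    ext i
    fin_cases i <;> simp <;> ring
  | .some x y h, 0 =>
    refine ⟨1, one_ne_zero, ?_⟩
    rw [Affine.Point.sym2x_some_zero, seval_addSub, add_zero, sub_zero,
      Affine.Point.sym2x_some_some]
    simp only [one_smul]
    ext i
    fin_cases i <;> simp <;> ring
  | .some x1 y1 h1, .some x2 y2 h2 =>
    have q1 := sw_eqn.mp h1.1
    have q2 := sw_eqn.mp h2.1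
    by_cases hx : x1 = x2
    · subst hx
      -- P = ± Q
      have hyy : y1 = y2 ∨ y1 = -y2 := by
        apply sq_eq_sq_iff_eq_or_eq_neg.mp
        rw [q1, q2]
      have main : ∀ (y : K) (h : (sw a b).toAffine.Nonsingular x1 y),
          ∃ c : K, c ≠ 0 ∧ (fun i ↦ (addSubMap (sw a b) i).eval
            ((Affine.Point.some x1 y h : SPt a b).sym2x (Affine.Point.some x1 y h)))
            = c • ((Affine.Point.some x1 y h : SPt a b) + Affine.Point.some x1 y h).sym2x 0 := by
        intro y h
        have q := sw_eqn.mp h.1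
        by_cases hy : y = 0
        · subst hy
          have hneg : (Affine.Point.some x1 0 h : SPt a b) + Affine.Point.some x1 0 h = 0 := by
            apply Affine.Point.add_self_of_Y_eq
            simp [Affine.negY, sw]
          rw [hneg, Affine.Point.sym2x_zero_zero, Affine.Point.sym2x_some_some, seval_addSub]
          have hq : x1 ^ 3 + a * x1 + b = 0 := by rw [← q]; ring
          refine ⟨x1 ^ 4 - 2 * a * x1 ^ 2 - 8 * b * x1 + a ^ 2, ?_, ?_⟩
          · have hb : b = -x1 ^ 3 - a * x1 := by linear_combination hq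
            have : x1 ^ 4 - 2 * a * x1 ^ 2 - 8 * b * x1 + a ^ 2 = (3 * x1 ^ 2 + a) ^ 2 := by
              rw [hb]; ring
            rw [this]
            apply pow_ne_zero
            intro h0
            apply hD
            have ha : a = -3 * x1 ^ 2 := by linear_combination h0
            rw [hb, ha]
            ring
          · ext i
            fin_cases i
            · simp
              ring
            · simp
              linear_combination 4 * hq
            · simp
              ring
        · have hd := sxRep_double h hy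
          have hy4 : 4 * y ^ 2 ≠ 0 := mul_ne_zero (by norm_num) (pow_ne_zero _ hy)
          refine ⟨4 * y ^ 2, hy4, ?_⟩
          rw [Affine.Point.sym2x_some_some, seval_addSub]
          ext i
          fin_cases i
          · simp [Affine.Point.sym2x, hd]
            field_simp
            ring
          · simp [Affine.Point.sym2x, hd]
            linear_combination (-4) * q
          · simp [Affine.Point.sym2x, hd]
            ring
      rcases hyy with hyy | hyy
      · subst hyy
        have := main y1 h1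
        rwa [sub_self]
      · subst hyy
        have hne : (Affine.Point.some x1 (-y2) h1 : SPt a b) = -Affine.Point.some x1 y2 h2 := by
          rw [sneg_mk]
        rw [hne]
        rw [Affine.Point.sym2x_neg_left, neg_add_cancel, Affine.Point.sym2x_comm 0, ← neg_add',
          Affine.Point.sym2x_neg_left]
        exact main y2 h2
    · have hx' : x1 - x2 ≠ 0 := sub_ne_zero.mpr hx
      have h2' : (sw a b).toAffine.Nonsingular x2 (-y2) := by
        apply sw_nonsing hD
        rw [← q2]; ring
      have ha := sxRep_add h1 h2 hx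
      have hb := sxRep_add h1 h2' hx
      rw [← sneg_mk h2 h2', ← sub_eq_add_neg] at hb
      refine ⟨(x1 - x2) ^ 2, pow_ne_zero _ hx', ?_⟩
      rw [Affine.Point.sym2x_some_some, seval_addSub]
      ext i
      fin_cases i
      · simp [Affine.Point.sym2x, ha, hb, snum]
        field_simp
        linear_combination 4 * y2 ^ 2 * q1 + 4 * (x1 ^ 3 + a * x1 + b) * q2
      · simp [Affine.Point.sym2x, ha, hb, snum]
        field_simp
        ring
      · simp [Affine.Point.sym2x, ha, hb, snum]
        ring

end dec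

/-- naive height of the `x`-coordinate -/
noncomputable def sht [NumberField K] {a b : K} (P : SPt a b) : ℝ := logHeight P.xRep

variable [NumberField K]

lemma sht_nonneg {a b : K} (P : SPt a b) : 0 ≤ sht P := logHeight_nonneg _

lemma sht_zero {a b : K} : sht (0 : SPt a b) = 0 := by
  rw [sht, Affine.Point.xRep_zero, logHeight_swap, ← logHeight₁_eq_logHeight, logHeight₁_zero]

lemma ssym2x_height (a b : K) : ∃ C : ℝ, ∀ P Q : SPt a b,
    |logHeight (P.sym2x Q) - (sht P + sht Q)| ≤ C := by
  obtain ⟨C, hC⟩ := abs_logHeight_sym2_sub_le K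
  refine ⟨C, fun P Q ↦ ?_⟩
  have hP : P.xRep = ![P.xRep 0, P.xRep 1] := by
    ext i; fin_cases i <;> simp
  have hQ : Q.xRep = ![Q.xRep 0, Q.xRep 1] := by
    ext i; fin_cases i <;> simp
  have hP0 : ![P.xRep 0, P.xRep 1] ≠ 0 := by rw [← hP]; exact P.xRep_ne_zero
  have hQ0 : ![Q.xRep 0, Q.xRep 1] ≠ 0 := by rw [← hQ]; exact Q.xRep_ne_zero
  have := hC hP0 hQ0
  rw [← hP, ← hQ] at this
  exact this

/-- approximate parallelogram law for the naive height -/
theorem spar_law [DecidableEq K] {a b : K} (hD : 4 * a ^ 3 + 27 * b ^ 2 ≠ 0) :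
    ∃ C : ℝ, 0 ≤ C ∧ ∀ P Q : SPt a b,
      |sht (P + Q) + sht (P - Q) - 2 * (sht P + sht Q)| ≤ C := by
  have := sw_ell hD
  obtain ⟨C1, hC1⟩ := ssym2x_height a b
  obtain ⟨C2, hC2⟩ := WeierstrassCurve.abs_logHeight_addSubMap_sub_two_mul_logHeight_le (sw a b)
  have key : ∀ P Q : SPt a b,
      |sht (P + Q) + sht (P - Q) - 2 * (sht P + sht Q)| ≤ 3 * C1 + C2 := by
    intro P Q
    have a1 := hC1 P Q
    have a2 := hC1 (P + Q) (P - Q)
    have a3 := hC2 (P.sym2x Q)
    obtain ⟨c, hc, hceq⟩ := saddSub_sym2x hD P Q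
    rw [hceq, logHeight_smul_eq_logHeight _ hc] at a3
    rw [abs_le] at a1 a2 a3 ⊢
    constructor <;> linarith [a1.1, a1.2, a2.1, a2.2, a3.1, a3.2]
  refine ⟨3 * C1 + C2, le_trans (abs_nonneg _) (key 0 0), key⟩

lemma sfinite_ht {a b : K} (B : ℝ) : {P : SPt a b | sht P ≤ B}.Finite := by
  classical
  have hfin := NumberField.finite_setOfPred_logHeight₁_le (K := K) B
  -- the map P ↦ xRep has finite fibres
  have h1 : ((fun P : SPt a b => P.xRep) '' {P : SPt a b | sht P ≤ B}).Finite := by
    apply Set.Finite.subset ((hfin.image (fun x : K => ![x, 1])).union (Set.finite_singleton ![1, 0]))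
    rintro _ ⟨P, hP, rfl⟩
    match P, hP with
    | 0, _ => right; simp
    | .some x y h, hP =>
      left
      refine ⟨x, ?_, by simp⟩
      simp only [Set.mem_ofPred_eq, sht, Affine.Point.xRep_some] at hP
      simp only [Set.mem_ofPred_eq]
      rw [logHeight₁_eq_logHeight]
      exact hP
  apply Set.Finite.of_finite_fibers _ h1
  intro v _
  by_cases hv : ∃ P : SPt a b, P.xRep = v
  · obtain ⟨P, rfl⟩ := hv
    apply Set.Finite.subset (s := {P, -P}) (by simp)
    intro Q hQ
    have : Q.xRep = P.xRep := hQ.2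
    rcases Affine.Point.eq_or_eq_neg_of_xRep_eq_xRep this with h | h
    · left; exact h
    · right; exact h
  · apply Set.Finite.subset (Set.finite_empty)
    intro Q hQ
    exact absurd ⟨Q, hQ.2⟩ hv

end Pool.Agent.TH942
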